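import Pool.Agent.MP_b9875a_co.H99.Spec2

set_option autoImplicit false

namespace Pool.Agent.MP_b9875a_co.H86.Tgt

open Finset
open Pool.Agent.MP_b9875a_co.H99.LN

/-- nodes of the auxiliary network: entries, exits, labels -/
abbrev Nd (V : Type) (m : ℕ) : Type := V ⊕ V ⊕ Fin (m + 1)

/-- arcs of the auxiliary network: real arcs, vertex arcs, token arcs -/
abbrev Ac (V : Type) : Type := (V × V) ⊕ (V × ℕ) ⊕ (ℕ × ℕ)

/-- label node -/
def lb (m i : ℕ) : Fin (m + 1) := ⟨min i m, Nat.lt_succ_of_le (min_le_right _ _)⟩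

theorem lb_val {m i : ℕ} (h : i < m) : (lb m i).val = i := by
  show min i m = i
  omega

theorem lb_inj {m i j : ℕ} (hi : i < m) (hj : j < m) (h : lb m i = lb m j) : i = j := by
  rw [← lb_val hi, ← lb_val hj, h]

section generic

theorem card2 {α β : Type} (G : Finset (α ⊕ β)) (P : α ⊕ β → Prop) [DecidablePred P]
    (P1 : α → Prop) [DecidablePred P1] (P2 : β → Prop) [DecidablePred P2]
    (h1 : ∀ a, P (Sum.inl a) ↔ P1 a) (h2 : ∀ b, P (Sum.inr b) ↔ P2 b) :
    (G.filter P).card = (G.toLeft.filter P1).card + (G.toRight.filter P2).card := by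
  rw [← card_toLeft_add_card_toRight (u := G.filter P)]
  have e1 : (G.filter P).toLeft = G.toLeft.filter P1 := by
    ext a
    simp only [mem_toLeft, mem_filter, h1]
  have e2 : (G.filter P).toRight = G.toRight.filter P2 := by
    ext a
    simp only [mem_toRight, mem_filter, h2]
  rw [e1, e2]

theorem card3 {α β γ : Type} (G : Finset (α ⊕ β ⊕ γ)) (P : α ⊕ β ⊕ γ → Prop) [DecidablePred P]
    (P1 : α → Prop) [DecidablePred P1] (P2 : β → Prop) [DecidablePred P2]
    (P3 : γ → Prop) [DecidablePred P3]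
    (h1 : ∀ a, P (Sum.inl a) ↔ P1 a) (h2 : ∀ b, P (Sum.inr (Sum.inl b)) ↔ P2 b)
    (h3 : ∀ b, P (Sum.inr (Sum.inr b)) ↔ P3 b) :
    (G.filter P).card = (G.toLeft.filter P1).card + (G.toRight.toLeft.filter P2).card +
      (G.toRight.toRight.filter P3).card := by
  rw [card2 G P P1 (fun b => P (Sum.inr b)) h1 (fun _ => Iff.rfl),
    card2 G.toRight (fun b => P (Sum.inr b)) P2 P3 h2 h3, add_assoc]

theorem cnt3 {α β γ N : Type} [DecidableEq N] (G : Finset (α ⊕ β ⊕ γ)) (f : α ⊕ β ⊕ γ → N)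
    (v : N) (P1 : α → Prop) [DecidablePred P1] (P2 : β → Prop) [DecidablePred P2]
    (P3 : γ → Prop) [DecidablePred P3]
    (h1 : ∀ a, f (Sum.inl a) = v ↔ P1 a) (h2 : ∀ b, f (Sum.inr (Sum.inl b)) = v ↔ P2 b)
    (h3 : ∀ b, f (Sum.inr (Sum.inr b)) = v ↔ P3 b) :
    cnt G f v = (G.toLeft.filter P1).card + (G.toRight.toLeft.filter P2).card +
      (G.toRight.toRight.filter P3).card := by
  unfold cnt
  exact card3 G (fun a => f a = v) P1 P2 P3 h1 h2 h3

theorem sum_cnt {V α : Type} [DecidableEq V] (T : Finset α) (f : α → V) (W : Finset V) :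
    ∑ v ∈ W, cnt T f v = (T.filter (fun a => f a ∈ W)).card := by
  unfold cnt
  exact sum_card_fiberwise_eq_card_filter T W f

theorem cnt_union {V α : Type} [DecidableEq V] [DecidableEq α] {A B : Finset α}
    (h : Disjoint A B) (f : α → V) (v : V) : cnt (A ∪ B) f v = cnt A f v + cnt B f v := by
  unfold cnt
  rw [filter_union, card_union_of_disjoint (disjoint_filter_filter h)]

theorem cnt_biUnion {V α ι : Type} [DecidableEq V] [DecidableEq α] (T : Finset ι)
    (P : ι → Finset α) (h : ∀ i ∈ T, ∀ j ∈ T, i ≠ j → Disjoint (P i) (P j)) (f : α → V) (v : V) :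
    cnt (T.biUnion P) f v = ∑ i ∈ T, cnt (P i) f v := by
  unfold cnt
  rw [filter_biUnion, card_biUnion]
  intro i hi j hj hij
  exact disjoint_filter_filter (h i hi j hj hij)

theorem cnt_eq_sum {V α : Type} [DecidableEq V] (T : Finset α) (f : α → V) (v : V) :
    cnt T f v = ∑ i ∈ T, if f i = v then 1 else 0 := by
  unfold cnt
  rw [card_filter]

end generic

section net

variable {V : Type}

/-- tails -/
def tlA (m : ℕ) (σ : St V) : Ac V → Nd V m
  | Sum.inl a => Sum.inr (Sum.inl a.1)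
  | Sum.inr (Sum.inl p) => Sum.inl p.1
  | Sum.inr (Sum.inr τ) => Sum.inl (σ.bs τ)

/-- heads -/
def hdA (m : ℕ) (σ : St V) : Ac V → Nd V m
  | Sum.inl a => Sum.inl (σ.hd a)
  | Sum.inr (Sum.inl p) => Sum.inr (Sum.inl p.1)
  | Sum.inr (Sum.inr τ) => Sum.inr (Sum.inr (lb m τ.1))

/-- costs -/
def wA : Ac V → ℕ
  | Sum.inl _ => 1
  | Sum.inr _ => 0

/-- absorbers -/
def cA (m : ℕ) (σ : St V) : Nd V m → ℕ
  | Sum.inl _ => 0
  | Sum.inr (Sum.inl _) => 0
  | Sum.inr (Sum.inr i) => if i.val ∈ σ.Need then 1 else 0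

/-- sources -/
def sA (m : ℕ) (σ : St V) (p : ℕ) : Nd V m := Sum.inr (Sum.inl (σ.og p))

/-- token arcs -/
def TA (σ : St V) : Finset (ℕ × ℕ) := σ.T.filter (fun τ => τ.1 ∈ σ.Need)

variable [Fintype V] [DecidableEq V]

/-- vertex arcs -/
def VA (σ : St V) : Finset (V × ℕ) := (univ ×ˢ range 100).filter (fun p => p.2 < σ.c p.1)

/-- all arcs -/
def AA (σ : St V) : Finset (Ac V) := (σ.D ∪ σ.H).disjSum ((VA σ).disjSum (TA σ))

omit [DecidableEq V] in
theorem mem_VA (σ : St V) (p : V × ℕ) : p ∈ VA σ ↔ p.2 < 100 ∧ p.2 < σ.c p.1 := by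
  unfold VA
  simp only [mem_filter, mem_product, mem_univ, true_and, mem_range]

theorem cnt_VA (σ : St V) (v : V) : cnt (VA σ) Prod.fst v = min 100 (σ.c v) := by
  unfold cnt
  have e : (VA σ).filter (fun p => p.1 = v) = (range (min 100 (σ.c v))).image (fun j => (v, j)) := by
    ext ⟨x, j⟩
    simp only [mem_filter, mem_VA, mem_image, mem_range, Prod.mk.injEq]
    constructor
    · rintro ⟨⟨h1, h2⟩, rfl⟩
      exact ⟨j, by omega, rfl, rfl⟩
    · rintro ⟨j', h, rfl, rfl⟩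
      exact ⟨⟨by omega, by omega⟩, rfl⟩
  rw [e, card_image_of_injective _ (fun a b h => (Prod.mk.inj h).2), card_range]

omit [Fintype V] in
theorem need_lt {k m s : ℕ} {σ : St V} (g : Good k m s σ) {i : ℕ} (hi : i ∈ σ.Need) : i < m := by
  have := g.ndr i hi
  omega

omit [Fintype V] in
theorem need_le {k m s : ℕ} {σ : St V} (g : Good k m s σ) : σ.Need.card ≤ k := by
  have h : σ.Need ⊆ range m := fun i hi => mem_range.2 (need_lt g hi)
  have := card_le_card h
  rw [card_range] at this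
  have := g.mk1
  omega

omit [Fintype V] in
theorem peb_card {k m s : ℕ} {σ : St V} (g : Good k m s σ) :
    (σ.Un ∪ σ.Cn).card = σ.Need.card := by
  rw [card_union_of_disjoint g.fl.d1, g.fl.nd, g.ar, card_empty, add_zero]

omit [Fintype V] in
theorem rich {k m s : ℕ} {σ : St V} (g : Good k m s σ) {x : V} (hx : x ∈ σ.S) (hc : 1 ≤ σ.c x)
    (I : Finset V) (hI : I.card ≤ 2 * k) :
    k ≤ ((σ.D ∪ σ.H).filter (fun a => a.1 = x ∧ σ.hd a ∉ I)).card := by
  have h1 := g.i1 x hx hc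
  have h2 := g.und x hx hc
  have h3 := cnt_union g.fl.dj Prod.fst x
  have h4 : cnt (σ.D ∪ σ.H) Prod.fst x =
      ((σ.D ∪ σ.H).filter (fun a => a.1 = x ∧ σ.hd a ∈ I)).card +
      ((σ.D ∪ σ.H).filter (fun a => a.1 = x ∧ σ.hd a ∉ I)).card := by
    unfold cnt
    rw [← filter_filter, ← filter_filter,
      card_filter_add_card_filter_not (s := (σ.D ∪ σ.H).filter (fun a => a.1 = x))
        (fun a => σ.hd a ∈ I)]
  have h5 : ((σ.D ∪ σ.H).filter (fun a => a.1 = x ∧ σ.hd a ∈ I)).card ≤ 100 * I.card := by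
    apply card_le_mul_card_image_of_maps_to (f := σ.hd)
    · intro a ha
      exact (mem_filter.1 ha).2.2
    · intro y _
      refine le_trans (card_le_card ?_) (g.mult x y)
      intro a ha
      simp only [mem_filter] at ha ⊢
      exact ⟨ha.1.1, ha.1.2.1, ha.2⟩
  omega

omit [Fintype V] in
theorem free_tok {k m s : ℕ} {σ : St V} (g : Good k m s σ) {i : ℕ} (hi : i ∈ σ.Need) :
    34 * k ≤ cnt (σ.T \ σ.B) Prod.fst i := by
  have h1 := g.tok i (need_lt g hi)
  rw [if_pos hi] at h1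
  have h2 : cnt σ.T Prod.fst i = cnt (σ.T \ σ.B) Prod.fst i + cnt σ.B Prod.fst i := by
    rw [← cnt_union sdiff_disjoint, sdiff_union_of_subset g.fl.BT]
  have h3 : cnt σ.B Prod.fst i ≤ 1 := by
    unfold cnt
    rw [card_le_one]
    intro a ha b hb
    rw [mem_filter] at ha hb
    exact g.fl.inj a ha.1 b hb.1 (ha.2.trans hb.2.symm)
  have := g.mk1
  omega

omit [Fintype V] in
theorem dem_ge {k m s : ℕ} {σ : St V} (g : Good k m s σ) (I : Finset V) :
    34 * k * (σ.Need.filter (fun i => ∀ τ ∈ σ.T, τ.1 = i → σ.bs τ ∉ I)).card ≤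
      ∑ v ∈ σ.S \ I, dem σ v := by
  set J := σ.Need.filter (fun i => ∀ τ ∈ σ.T, τ.1 = i → σ.bs τ ∉ I) with hJ
  have h1 : ∑ v ∈ σ.S \ I, cnt (σ.T \ σ.B) σ.bs v ≤ ∑ v ∈ σ.S \ I, dem σ v :=
    sum_le_sum (fun v _ => Nat.le_add_right _ _)
  have h2 : ∑ _i ∈ J, 34 * k ≤ ∑ i ∈ J, cnt (σ.T \ σ.B) Prod.fst i :=
    sum_le_sum (fun i hi => free_tok g (mem_filter.1 hi).1)
  rw [sum_cnt] at h1 h2
  rw [sum_const, smul_eq_mul, mul_comm] at h2
  refine le_trans h2 (le_trans (card_le_card ?_) h1)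
  intro τ hτ
  rw [mem_filter] at hτ ⊢
  have hT := (mem_sdiff.1 hτ.1).1
  exact ⟨hτ.1, mem_sdiff.2 ⟨g.bsS τ hT, (mem_filter.1 hτ.2).2 τ hT rfl⟩⟩

theorem mval_le {k m s : ℕ} {σ : St V} (hk : 1 ≤ k) (g : Good k m s σ) (I : Finset V)
    (O : V → Prop) [DecidablePred O] :
    mval (cap σ) Prod.fst σ.hd σ.D I ≤
      34 * k * ((σ.D.filter (fun a => O a.1 ∧ σ.hd a ∉ I)).card +
        ((VA σ).filter (fun p => p.1 ∈ I ∧ ¬ O p.1)).card) := by
  unfold mval
  rw [← sum_filter_add_sum_filter_not I O, mul_add]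
  apply Nat.add_le_add
  · have h1 : ∑ v ∈ I.filter O, min (cap σ v) (ex Prod.fst σ.hd σ.D v I) ≤
        ∑ v ∈ I.filter O, cnt (σ.D.filter (fun a => σ.hd a ∉ I)) Prod.fst v := by
      apply sum_le_sum
      intro v _
      refine le_trans (min_le_right _ _) (card_le_card ?_)
      intro a ha
      simp only [mem_filter] at ha ⊢
      exact ⟨⟨ha.1, ha.2.2⟩, ha.2.1⟩
    rw [sum_cnt] at h1
    have h2 : ((σ.D.filter (fun a => σ.hd a ∉ I)).filter (fun a => a.1 ∈ I.filter O)).card ≤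
        (σ.D.filter (fun a => O a.1 ∧ σ.hd a ∉ I)).card := by
      apply card_le_card
      intro a ha
      simp only [mem_filter] at ha ⊢
      exact ⟨ha.1.1, ha.2.2, ha.1.2⟩
    refine le_trans h1 (le_trans h2 (Nat.le_mul_of_pos_left _ (by omega)))
  · have h1 : ∑ v ∈ I.filter (fun v => ¬ O v), min (cap σ v) (ex Prod.fst σ.hd σ.D v I) ≤
        ∑ v ∈ I.filter (fun v => ¬ O v), 34 * k * cnt (VA σ) Prod.fst v := by
      apply sum_le_sum
      intro v _
      refine le_trans (min_le_left _ _) ?_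
      rw [cnt_VA]
      have hc := g.cg v
      have hcap : cap σ v ≤ σ.c v := Nat.sub_le _ _
      rcases le_total 100 (σ.c v) with h | h
      · rw [min_eq_left h]
        omega
      · rw [min_eq_right h]
        exact le_trans hcap (Nat.le_mul_of_pos_left _ (by omega))
    rw [← mul_sum, sum_cnt] at h1
    refine le_trans h1 (Nat.mul_le_mul_left _ (card_le_card ?_))
    intro a ha
    simp only [mem_filter] at ha ⊢
    exact ha

omit [Fintype V] in
theorem absorb {k m s : ℕ} {σ : St V} (g : Good k m s σ) (U : Finset (Nd V m)) :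
    (σ.Need.filter (fun i => (Sum.inr (Sum.inr (lb m i)) : Nd V m) ∈ U)).card ≤
      ∑ v ∈ U, cA m σ v := by
  set J := σ.Need.filter (fun i => (Sum.inr (Sum.inr (lb m i)) : Nd V m) ∈ U) with hJ
  have hinj : Set.InjOn (fun i => (Sum.inr (Sum.inr (lb m i)) : Nd V m)) (J : Set ℕ) := by
    intro i hi j hj h
    exact lb_inj (need_lt g (mem_filter.1 hi).1) (need_lt g (mem_filter.1 hj).1)
      (Sum.inr.inj (Sum.inr.inj h))
  have h1 : ∑ v ∈ J.image (fun i => (Sum.inr (Sum.inr (lb m i)) : Nd V m)), cA m σ v ≤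
      ∑ v ∈ U, cA m σ v := by
    apply sum_le_sum_of_subset
    intro v hv
    obtain ⟨i, hi, rfl⟩ := mem_image.1 hv
    exact (mem_filter.1 hi).2
  rw [sum_image hinj] at h1
  refine le_trans (le_of_eq ?_) h1
  rw [card_eq_sum_ones]
  apply sum_congr rfl
  intro i hi
  have hi' := (mem_filter.1 hi).1
  show 1 = if (lb m i).val ∈ σ.Need then 1 else 0
  rw [lb_val (need_lt g hi'), if_pos hi']

theorem cut {k m s : ℕ} {σ : St V} (hk : 1 ≤ k) (g : Good k m s σ) (U : Finset (Nd V m)) :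
    ((σ.Un ∪ σ.Cn).filter (fun p => sA m σ p ∈ U)).card ≤
      ((AA σ).filter (fun a => tlA m σ a ∈ U ∧ hdA m σ a ∉ U)).card + ∑ v ∈ U, cA m σ v := by
  rcases ((σ.Un ∪ σ.Cn).filter (fun p => sA m σ p ∈ U)).eq_empty_or_nonempty with h0 | ⟨p, hp⟩
  · rw [h0, card_empty]
    exact Nat.zero_le _
  have hle : ((σ.Un ∪ σ.Cn).filter (fun p => sA m σ p ∈ U)).card ≤ σ.Need.card := by
    rw [← peb_card g]
    exact card_filter_le _ _
  refine le_trans hle ?_
  have hsplit := card3 (AA σ) (fun a => tlA m σ a ∈ U ∧ hdA m σ a ∉ U)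
    (fun a => (Sum.inr (Sum.inl a.1) : Nd V m) ∈ U ∧ (Sum.inl (σ.hd a) : Nd V m) ∉ U)
    (fun p => (Sum.inl p.1 : Nd V m) ∈ U ∧ (Sum.inr (Sum.inl p.1) : Nd V m) ∉ U)
    (fun τ => (Sum.inl (σ.bs τ) : Nd V m) ∈ U ∧ (Sum.inr (Sum.inr (lb m τ.1)) : Nd V m) ∉ U)
    (fun _ => Iff.rfl) (fun _ => Iff.rfl) (fun _ => Iff.rfl)
  have eL : (AA σ).toLeft = σ.D ∪ σ.H := toLeft_disjSum
  have eV : (AA σ).toRight.toLeft = VA σ := by
    unfold AA
    rw [toRight_disjSum, toLeft_disjSum]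
  have eT : (AA σ).toRight.toRight = TA σ := by
    unfold AA
    rw [toRight_disjSum, toRight_disjSum]
  rw [eL, eV, eT] at hsplit
  rw [hsplit]
  set I := σ.S.filter (fun v => (Sum.inl v : Nd V m) ∈ U) with hI
  have hmemI : ∀ v ∈ σ.S, v ∉ I → (Sum.inl v : Nd V m) ∉ U :=
    fun v hv h hU => h (mem_filter.2 ⟨hv, hU⟩)
  have hhd : ∀ a ∈ σ.D ∪ σ.H, σ.hd a ∈ σ.S := by
    intro a ha
    rcases mem_union.1 ha with h | h
    · exact (g.arcD a h).2
    · exact (g.arcH a h).2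
  rcases le_or_gt I.card (2 * k) with hs | hs
  · obtain ⟨hp1, hp2⟩ := mem_filter.1 hp
    have hx : σ.og p ∈ σ.S ∧ 1 ≤ σ.c (σ.og p) := by
      rcases mem_union.1 hp1 with h | h
      · exact g.ogU p h
      · exact g.ogC p h
    have h1 := rich g hx.1 hx.2 I hs
    have h2 : ((σ.D ∪ σ.H).filter (fun a => a.1 = σ.og p ∧ σ.hd a ∉ I)).card ≤
        ((σ.D ∪ σ.H).filter (fun a => (Sum.inr (Sum.inl a.1) : Nd V m) ∈ U ∧
          (Sum.inl (σ.hd a) : Nd V m) ∉ U)).card := by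
      apply card_le_card
      intro a ha
      rw [mem_filter] at ha ⊢
      refine ⟨ha.1, ?_, hmemI _ (hhd a ha.1) ha.2.2⟩
      rw [ha.2.1]
      exact hp2
    have h3 := need_le g
    omega
  · have h1 := g.adm I (filter_subset _ _) hs
    have h2 := dem_ge g I
    have h3 := mval_le hk g I (fun v => (Sum.inr (Sum.inl v) : Nd V m) ∈ U)
    have h4 := Nat.le_of_mul_le_mul_left (le_trans h2 (le_trans h1 h3)) (by omega)
    have h5 : (σ.D.filter (fun a => (Sum.inr (Sum.inl a.1) : Nd V m) ∈ U ∧ σ.hd a ∉ I)).card ≤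
        ((σ.D ∪ σ.H).filter (fun a => (Sum.inr (Sum.inl a.1) : Nd V m) ∈ U ∧
          (Sum.inl (σ.hd a) : Nd V m) ∉ U)).card := by
      apply card_le_card
      intro a ha
      rw [mem_filter] at ha ⊢
      exact ⟨mem_union_left _ ha.1, ha.2.1, hmemI _ (g.arcD a ha.1).2 ha.2.2⟩
    have h6 : ((VA σ).filter (fun p => p.1 ∈ I ∧ ¬ (Sum.inr (Sum.inl p.1) : Nd V m) ∈ U)).card ≤
        ((VA σ).filter (fun p => (Sum.inl p.1 : Nd V m) ∈ U ∧
          (Sum.inr (Sum.inl p.1) : Nd V m) ∉ U)).card := by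
      apply card_le_card
      intro a ha
      rw [mem_filter] at ha ⊢
      exact ⟨ha.1, (mem_filter.1 ha.2.1).2, ha.2.2⟩
    have h7 := absorb g U
    have h8 : σ.Need ⊆ (σ.Need.filter (fun i => ∀ τ ∈ σ.T, τ.1 = i → σ.bs τ ∉ I) ∪
        ((TA σ).filter (fun τ => (Sum.inl (σ.bs τ) : Nd V m) ∈ U ∧
          (Sum.inr (Sum.inr (lb m τ.1)) : Nd V m) ∉ U)).image Prod.fst) ∪
        σ.Need.filter (fun i => (Sum.inr (Sum.inr (lb m i)) : Nd V m) ∈ U) := by
      intro i hi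
      by_cases hU : (Sum.inr (Sum.inr (lb m i)) : Nd V m) ∈ U
      · exact mem_union_right _ (mem_filter.2 ⟨hi, hU⟩)
      apply mem_union_left
      by_cases hJ : ∀ τ ∈ σ.T, τ.1 = i → σ.bs τ ∉ I
      · exact mem_union_left _ (mem_filter.2 ⟨hi, hJ⟩)
      apply mem_union_right
      push Not at hJ
      obtain ⟨τ, hτ, rfl, hb⟩ := hJ
      exact mem_image.2 ⟨τ, mem_filter.2 ⟨mem_filter.2 ⟨hτ, hi⟩, (mem_filter.1 hb).2, hU⟩, rfl⟩
    have h9 := le_trans (card_le_card h8) (le_trans (card_union_le _ _)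
      (Nat.add_le_add_right (le_trans (card_union_le _ _)
        (Nat.add_le_add_left card_image_le _)) _))
    omega

theorem sum_cA {k m s : ℕ} {σ : St V} (g : Good k m s σ) :
    ∑ v : Nd V m, cA m σ v ≤ σ.Need.card := by
  rw [Fintype.sum_sum_type, Fintype.sum_sum_type]
  have e1 : ∑ v : V, cA m σ (Sum.inl v) = 0 := sum_eq_zero (fun _ _ => rfl)
  have e2 : ∑ v : V, cA m σ (Sum.inr (Sum.inl v)) = 0 := sum_eq_zero (fun _ _ => rfl)
  have e3 : ∑ i : Fin (m + 1), cA m σ (Sum.inr (Sum.inr i)) =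
      (univ.filter (fun i : Fin (m + 1) => i.val ∈ σ.Need)).card := by
    rw [card_filter]
    rfl
  rw [e1, e2, e3, zero_add, zero_add]
  have _h := g.mk1
  apply card_le_card_of_injOn (fun i : Fin (m + 1) => i.val)
  · intro i hi
    exact (mem_filter.1 (mem_coe.1 hi)).2
  · intro i _ j _ h
    exact Fin.ext h

theorem flow (hM : MengerStmt) {k m s : ℕ} {σ : St V} (hk : 1 ≤ k) (g : Good k m s σ) :
    ∃ G0, G0 ⊆ AA σ ∧ ∀ v, cnt G0 (tlA m σ) v + cA m σ v =
      cnt G0 (hdA m σ) v + cnt (σ.Un ∪ σ.Cn) (sA m σ) v := by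
  obtain ⟨e, P, h1, h2, h3⟩ := hM (Nd V m) (Ac V) ℕ (tlA m σ) (hdA m σ) (AA σ) (σ.Un ∪ σ.Cn)
    (sA m σ) (cA m σ) (cut hk g)
  have hsum : ∑ v : Nd V m, cnt (σ.Un ∪ σ.Cn) e v = σ.Need.card := by
    rw [sum_cnt, ← peb_card g, filter_true_of_mem (fun _ _ => mem_univ _)]
  have heq : ∀ v, cnt (σ.Un ∪ σ.Cn) e v = cA m σ v := by
    have hs : ∑ v : Nd V m, cnt (σ.Un ∪ σ.Cn) e v = ∑ v : Nd V m, cA m σ v :=
      le_antisymm (sum_le_sum (fun v _ => h3 v)) (by rw [hsum]; exact sum_cA g)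
    intro v
    exact (sum_eq_sum_iff_of_le (fun v _ => h3 v)).1 hs v (mem_univ v)
  refine ⟨(σ.Un ∪ σ.Cn).biUnion P, biUnion_subset.2 (fun i hi => (h1 i hi).1), fun v => ?_⟩
  rw [← heq v, cnt_biUnion _ _ h2, cnt_biUnion _ _ h2, cnt_eq_sum _ e, cnt_eq_sum _ (sA m σ),
    ← sum_add_distrib, ← sum_add_distrib]
  exact sum_congr rfl (fun i hi => (h1 i hi).2.2 v)

end net

theorem target : MengerStmt → PotStmt → TargetStmt := by
  intro hM hP V _ _ k m s σ hk g
  obtain ⟨G0, hG0, hb0⟩ := flow hM hk g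
  obtain ⟨G, hG, hb1, π, hπ1, hπ2⟩ :=
    hP (Nd V m) (Ac V) (tlA m σ) (hdA m σ) (AA σ) G0 wA hG0
  have hb : ∀ v, cnt G (tlA m σ) v + cA m σ v =
      cnt G (hdA m σ) v + cnt (σ.Un ∪ σ.Cn) (sA m σ) v := by
    intro v
    have := hb0 v
    have := hb1 v
    omega
  have mL : ∀ a, (Sum.inl a : Ac V) ∈ AA σ ↔ a ∈ σ.D ∪ σ.H := fun a => inl_mem_disjSum
  have mV : ∀ p, (Sum.inr (Sum.inl p) : Ac V) ∈ AA σ ↔ p ∈ VA σ :=
    fun p => inr_mem_disjSum.trans inl_mem_disjSum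
  have mT : ∀ τ, (Sum.inr (Sum.inr τ) : Ac V) ∈ AA σ ↔ τ ∈ TA σ :=
    fun p => inr_mem_disjSum.trans inr_mem_disjSum
  have sV : G.toRight.toLeft ⊆ VA σ := fun p hp =>
    (mV p).1 (hG (mem_toRight.1 (mem_toLeft.1 hp)))
  have sT : G.toRight.toRight ⊆ TA σ := fun p hp =>
    (mT p).1 (hG (mem_toRight.1 (mem_toRight.1 hp)))
  have hac : ∀ v, cnt G.toRight.toLeft Prod.fst v ≤ min 100 (σ.c v) := by
    intro v
    rw [← cnt_VA]
    exact card_le_card (filter_subset_filter _ sV)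
  refine ⟨G.toLeft, G.toRight.toRight, fun v => cnt G.toRight.toLeft Prod.fst v,
    fun v => π (Sum.inl v), fun v => π (Sum.inr (Sum.inl v)),
    fun i => π (Sum.inr (Sum.inr (lb m i))), ?_⟩
  constructor
  · intro a ha
    exact (mL a).1 (hG (mem_toLeft.1 ha))
  · intro τ hτ
    exact (mem_filter.1 (sT hτ)).1
  · intro v
    exact le_trans (hac v) (min_le_left _ _)
  · intro v
    exact le_trans (hac v) (min_le_right _ _)
  · intro v
    have h := hb (Sum.inl v)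
    have e1 := cnt3 G (tlA m σ) (Sum.inl v) (fun _ => False) (fun p => p.1 = v)
      (fun τ => σ.bs τ = v) (fun a => by simp [tlA]) (fun a => by simp [tlA])
      (fun a => by simp [tlA])
    have e2 := cnt3 G (hdA m σ) (Sum.inl v) (fun a => σ.hd a = v) (fun _ => False)
      (fun _ => False) (fun a => by simp [hdA]) (fun a => by simp [hdA])
      (fun a => by simp [hdA])
    have e3 : cnt (σ.Un ∪ σ.Cn) (sA m σ) (Sum.inl v) = 0 := by
      unfold cnt
      rw [card_eq_zero, filter_eq_empty_iff]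
      intro p _
      simp [sA]
    have e4 : cA m σ (Sum.inl v) = 0 := rfl
    simp only [filter_false, card_empty] at e1 e2
    show (G.toLeft.filter (fun a => σ.hd a = v)).card =
      (G.toRight.toRight.filter (fun τ => σ.bs τ = v)).card +
        (G.toRight.toLeft.filter (fun p => p.1 = v)).card
    omega
  · intro v
    have h := hb (Sum.inr (Sum.inl v))
    have e1 := cnt3 G (tlA m σ) (Sum.inr (Sum.inl v)) (fun a => a.1 = v)
      (fun _ => False) (fun _ => False) (fun a => by simp [tlA]) (fun a => by simp [tlA])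
      (fun a => by simp [tlA])
    have e2 := cnt3 G (hdA m σ) (Sum.inr (Sum.inl v)) (fun _ => False)
      (fun p => p.1 = v) (fun _ => False) (fun a => by simp [hdA]) (fun a => by simp [hdA])
      (fun a => by simp [hdA])
    have e3 : cnt (σ.Un ∪ σ.Cn) (sA m σ) (Sum.inr (Sum.inl v)) =
        cnt σ.Un σ.og v + cnt σ.Cn σ.og v := by
      rw [← cnt_union g.fl.d1]
      unfold cnt
      rw [filter_congr (q := fun p => σ.og p = v) (fun p _ => by simp [sA])]
    have e4 : cA m σ (Sum.inr (Sum.inl v)) = 0 := rfl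
    simp only [filter_false, card_empty] at e1 e2
    show (G.toRight.toLeft.filter (fun p => p.1 = v)).card + cnt σ.Un σ.og v + cnt σ.Cn σ.og v =
      (G.toLeft.filter (fun a => a.1 = v)).card
    omega
  · intro i hi
    have h := hb (Sum.inr (Sum.inr (lb m i)))
    have e2 := cnt3 G (hdA m σ) (Sum.inr (Sum.inr (lb m i))) (fun _ => False)
      (fun _ => False) (fun τ => lb m τ.1 = lb m i) (fun a => by simp [hdA])
      (fun a => by simp [hdA]) (fun a => by simp [hdA])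
    have e3 : cnt (σ.Un ∪ σ.Cn) (sA m σ) (Sum.inr (Sum.inr (lb m i))) = 0 := by
      unfold cnt
      rw [card_eq_zero, filter_eq_empty_iff]
      intro p _
      simp [sA]
    have e4 : cA m σ (Sum.inr (Sum.inr (lb m i))) = 1 := by
      show (if (lb m i).val ∈ σ.Need then 1 else 0) = 1
      rw [lb_val (need_lt g hi), if_pos hi]
    simp only [filter_false, card_empty] at e2
    have hpos : 0 < (G.toRight.toRight.filter (fun τ => lb m τ.1 = lb m i)).card := by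
      omega
    obtain ⟨τ, hτ⟩ := card_pos.1 hpos
    obtain ⟨hτ1, hτ2⟩ := mem_filter.1 hτ
    exact ⟨τ, hτ1, lb_inj (g.tlab τ (mem_filter.1 (sT hτ1)).1) (need_lt g hi) hτ2⟩
  · intro a ha
    exact hπ1 (Sum.inl a) (mem_toLeft.1 ha)
  · intro a ha hn
    exact hπ2 (Sum.inl a) ((mL a).2 ha) (fun h => hn (mem_toLeft.2 h))
  · intro v hv
    obtain ⟨p, hp⟩ := card_pos.1 hv
    obtain ⟨hp1, rfl⟩ := mem_filter.1 hp
    exact hπ1 (Sum.inr (Sum.inl p)) (mem_toRight.1 (mem_toLeft.1 hp1))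
  · intro v h1 h2
    have hlt : cnt G.toRight.toLeft Prod.fst v < cnt (VA σ) Prod.fst v := by
      rw [cnt_VA]
      exact lt_min h1 h2
    obtain ⟨p, hp, hn⟩ := exists_mem_notMem_of_card_lt_card hlt
    obtain ⟨hp1, rfl⟩ := mem_filter.1 hp
    exact hπ2 (Sum.inr (Sum.inl p)) ((mV p).2 hp1)
      (fun h => hn (mem_filter.2 ⟨mem_toLeft.2 (mem_toRight.2 h), rfl⟩))
  · intro τ hτ
    exact hπ1 (Sum.inr (Sum.inr τ)) (mem_toRight.1 (mem_toRight.1 hτ))
  · intro τ hτ hn hi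
    exact hπ2 (Sum.inr (Sum.inr τ)) ((mT τ).2 (mem_filter.2 ⟨hτ, hi⟩))
      (fun h => hn (mem_toRight.2 (mem_toRight.2 h)))

end Pool.Agent.MP_b9875a_co.H86.Tgt
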